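import Mathlib
import Pool.Agent.Lib.MP_c9a594_an.Real

/-!
For every finite measure invariant under multiplication by a modulo one, zero entropy included,
almost every irrational point has a dense orbit under multiplication by b modulo one.
-/

namespace Pool.Agent.Lib.MP_c9a594_an.Variants.AlmostEveryInvariant

theorem result (a b : ℕ) (ha : 2 ≤ a) (hb : 2 ≤ b)
    (hab : ∀ m n : ℕ, a ^ m = b ^ n → m = 0 ∧ n = 0)
    (μ : MeasureTheory.Measure ℝ) [MeasureTheory.IsFiniteMeasure μ]
    (hμ : MeasureTheory.MeasurePreserving (fun x : ℝ => Int.fract ((a : ℝ) * x)) μ μ) :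
    ∀ᵐ x ∂μ, Irrational x →
      closure (Set.range (fun n : ℕ => Int.fract ((b : ℝ) ^ n * x))) = Set.Icc 0 1 :=
  Pool.Agent.Lib.MP_c9a594_an.ae_dense a b ha hb hab μ hμ

end Pool.Agent.Lib.MP_c9a594_an.Variants.AlmostEveryInvariant
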