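import Pool.Agent.Results.MP_c9a594_an.TwoBaseDilates

/-! The one-base statement, derived from the two-base statement. -/

namespace Pool.Agent.Lib.MP_c9a594_an.Variants.DilatesDense

open Real

variable {A : ℕ}

/-- The number with digits `0`, `1` in base `A`. -/
noncomputable def gg (h : 2 ≤ A) (ω : ℕ → Fin 2) : ℝ := ofDigits fun i => Fin.castLE h (ω i)

lemma gg_step (h : 2 ≤ A) (ω : ℕ → Fin 2) :
    (A : ℝ) * gg h ω = ((ω 0 : ℕ) : ℝ) + gg h fun i => ω (i + 1) := by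
  have h0 : (A : ℝ) ≠ 0 := by exact_mod_cast by omega
  rw [gg, ofDigits_eq_sum_add_ofDigits _ 1]
  simp only [Finset.range_one, Finset.sum_singleton, ofDigitsTerm, gg, Fin.val_castLE]
  field_simp
  simp [mul_add]

lemma gg_le (h : 2 ≤ A) (h4 : 4 ≤ A) (ω : ℕ → Fin 2) : (A : ℝ) * gg h ω ≤ 3 / 2 := by
  have hA : (4 : ℝ) ≤ A := by exact_mod_cast h4
  have hd : ∀ d : Fin 2, ((d : ℕ) : ℝ) ≤ 1 := fun d => by exact_mod_cast Nat.lt_succ_iff.1 d.2
  have h1 : ∀ ω, gg h ω ≤ 1 / 2 := fun ω => by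
    have h2 := gg_step h ω
    have h3 : gg h (fun i => ω (i + 1)) ≤ 1 := ofDigits_le_one _
    have h5 : 0 ≤ gg h ω := ofDigits_nonneg _
    nlinarith [hd (ω 0)]
  rw [gg_step]
  linarith [hd (ω 0), h1 fun i => ω (i + 1)]

lemma gg_sep (h : 2 ≤ A) (h4 : 4 ≤ A) (n : ℕ) : ∀ ω ω' : ℕ → Fin 2, (∀ i < n, ω i = ω' i) →
    ω n ≠ ω' n → 1 / 2 ≤ (A : ℝ) ^ (n + 1) * |gg h ω - gg h ω'| := by
  have hA : (4 : ℝ) ≤ A := by exact_mod_cast h4
  have key : ∀ ω ω' : ℕ → Fin 2, (A : ℝ) * |gg h ω - gg h ω'| =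
      |((ω 0 : ℕ) : ℝ) - (ω' 0 : ℕ) + (gg h (fun i => ω (i + 1)) - gg h fun i => ω' (i + 1))| :=
    fun ω ω' => by
      rw [← abs_of_nonneg (by linarith : (0 : ℝ) ≤ A), ← abs_mul, mul_sub, gg_step, gg_step]
      congr 1
      ring
  induction n with
  | zero =>
    intro ω ω' _ hne
    have hb : ∀ ω, 0 ≤ gg h ω ∧ gg h ω ≤ 1 / 2 := fun ω => by
      have h5 : 0 ≤ gg h ω := ofDigits_nonneg _
      exact ⟨h5, by nlinarith [gg_le h h4 ω]⟩
    obtain ⟨h1, h2⟩ := hb fun i => ω (i + 1)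
    obtain ⟨h3, h5⟩ := hb fun i => ω' (i + 1)
    rw [zero_add, pow_one, key, le_abs]
    generalize ω 0 = d, ω' 0 = d' at hne ⊢
    fin_cases d <;> fin_cases d' <;> simp at hne ⊢
    · right
      linarith
    · left
      linarith
  | succ n ih =>
    intro ω ω' h1 hne
    rw [pow_succ, mul_assoc, key, h1 0 (Nat.succ_pos n), sub_self, zero_add]
    exact ih _ _ (fun i hi => h1 (i + 1) (Nat.succ_lt_succ hi)) hne

lemma gg_dim (h : 2 ≤ A) (h4 : 4 ≤ A) : 0 < dimH (Set.range (gg h)) := by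
  have hA : (4 : ℝ) ≤ A := by exact_mod_cast h4
  have hex : ∀ ω ω' : ℕ → Fin 2, ω ≠ ω' → ∃ n, (∀ i < n, ω i = ω' i) ∧ ω n ≠ ω' n :=
    fun ω ω' hne => by
      have h1 := Function.ne_iff.1 hne
      exact ⟨Nat.find h1, fun i hi => not_not.1 (Nat.find_min h1 hi), Nat.find_spec h1⟩
  have hinj : Function.Injective (gg h) := fun ω ω' e => by
    by_contra hne
    obtain ⟨n, h1, h2⟩ := hex ω ω' hne
    have h3 := gg_sep h h4 n ω ω' h1 h2
    rw [e, sub_self, abs_zero, mul_zero] at h3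
    linarith
  have hleft := Function.leftInverse_invFun hinj
  have hH : HolderOnWith (2 * A) (A : NNReal)⁻¹ (fun x => ofDigits (Function.invFun (gg h) x))
      (Set.range (gg h)) := by
    rintro _ ⟨ω, rfl⟩ _ ⟨ω', rfl⟩
    simp only [hleft ω, hleft ω']
    by_cases hne : ω = ω'
    · simp [hne]
    obtain ⟨n, h1, h2⟩ := hex ω ω' hne
    have h3 := gg_sep h h4 n ω ω' h1 h2
    have h5 := abs_ofDigits_sub_ofDigits_le h1
    have h6 : (A : ℝ) ≤ 2 ^ A := by exact_mod_cast (Nat.lt_two_pow_self (n := A)).le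
    have h7 : |ofDigits ω - ofDigits ω'| ^ A ≤ (2 * A) ^ A * |gg h ω - gg h ω'| := by
      have h8 : |ofDigits ω - ofDigits ω'| ^ A ≤ ((A : ℝ) ^ n)⁻¹ := by
        refine (pow_le_pow_left₀ (abs_nonneg _) h5 A).trans ?_
        rw [inv_pow, ← pow_mul, mul_comm, pow_mul]
        exact inv_anti₀ (by positivity) (pow_le_pow_left₀ (by positivity) h6 n)
      have h9 : ((A : ℝ) ^ n)⁻¹ ≤ 2 * A * |gg h ω - gg h ω'| := by
        rw [inv_le_iff_one_le_mul₀ (by positivity)]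
        rw [pow_succ] at h3
        linarith
      exact h8.trans (h9.trans (mul_le_mul_of_nonneg_right
        (le_self_pow₀ (by linarith) (by omega)) (abs_nonneg _)))
    have h10 : |ofDigits ω - ofDigits ω'| ≤ 2 * A * |gg h ω - gg h ω'| ^ (A : ℝ)⁻¹ := by
      refine le_of_pow_le_pow_left₀ (n := A) (by omega) (by positivity) ?_
      rwa [mul_pow _ (_ ^ _), Real.rpow_inv_natCast_pow (abs_nonneg _) (by omega)]
    rw [edist_dist, edist_dist, Real.dist_eq, Real.dist_eq,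
      ENNReal.ofReal_rpow_of_nonneg (abs_nonneg _) (by positivity), ← ENNReal.ofReal_coe_nnreal,
      ← ENNReal.ofReal_mul (by positivity)]
    exact ENNReal.ofReal_le_ofReal (by simpa using h10)
  have h1 := hH.dimH_image_le (by positivity)
  have h2 : Set.Icc (0 : ℝ) 1 ⊆
      (fun x => ofDigits (Function.invFun (gg h) x)) '' Set.range (gg h) := fun y hy => by
    obtain ⟨ω, -, rfl⟩ := ofDigits_SurjOn (b := 2) one_lt_two hy
    exact ⟨_, ⟨ω, rfl⟩, by simp only [hleft ω]⟩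
  have h3 : dimH (Set.Icc (0 : ℝ) 1) = Module.finrank ℝ ℝ :=
    dimH_of_nonempty_interior (by simp)
  refine pos_iff_ne_zero.2 fun h0 => ?_
  have h5 := (dimH_mono h2).trans h1
  rw [h0, h3] at h5
  simp at h5

lemma gg_fract {a : ℕ} (ha : 2 ≤ a) (h : 2 ≤ a * a) (k : ℕ) :
    ∀ ω, Int.fract ((a : ℝ) ^ k * gg h ω) ≤ 3 / 4 := by
  have h2 : (2 : ℝ) ≤ a := by exact_mod_cast ha
  have hb : ∀ ω, 0 ≤ gg h ω ∧ (a : ℝ) * gg h ω ≤ 3 / 4 := fun ω => by
    have h5 : 0 ≤ gg h ω := ofDigits_nonneg _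
    have h6 := gg_le h (by nlinarith) ω
    push_cast at h6
    exact ⟨h5, by nlinarith [mul_nonneg (by linarith : (0 : ℝ) ≤ a) h5]⟩
  induction k using Nat.twoStepInduction with
  | zero =>
    intro ω
    obtain ⟨h3, h4⟩ := hb ω
    rw [pow_zero, one_mul, Int.fract_eq_self.2 ⟨h3, by nlinarith⟩]
    nlinarith
  | one =>
    intro ω
    obtain ⟨h3, h4⟩ := hb ω
    rwa [pow_one, Int.fract_eq_self.2 ⟨by positivity, by linarith⟩]
  | more k ih _ =>
    intro ω
    have h3 := gg_step h ω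
    push_cast at h3
    have h4 : (a : ℝ) ^ (k + 2) * gg h ω =
        ((a ^ k * ω 0 : ℕ) : ℝ) + (a : ℝ) ^ k * gg h fun i => ω (i + 1) := by
      push_cast
      rw [← mul_add, ← h3]
      ring
    rw [h4, Int.fract_natCast_add]
    exact ih _

/-- For multiplicatively independent `a`, `b` and a set `Y` mapped into itself by multiplication
by `b` modulo one whose closure has positive dimension, the set `a ^ n Y` modulo one meets every
interval for all large `n`. -/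
theorem result (a b : ℕ) (ha : 2 ≤ a) (hb : 2 ≤ b)
    (hab : ∀ m n : ℕ, a ^ m = b ^ n → m = 0 ∧ n = 0)
    (Y : Set ℝ) (hY : Y ⊆ Set.Ico 0 1) (hT : ∀ y ∈ Y, Int.fract ((b : ℝ) * y) ∈ Y)
    (hdim : 0 < dimH (closure Y)) (u v : ℝ) (hu : 0 ≤ u) (huv : u < v) (hv : v ≤ 1) :
    ∀ᶠ n : ℕ in Filter.atTop, ∃ y ∈ Y, Int.fract ((a : ℝ) ^ n * y) ∈ Set.Ioo u v := by
  have h : 2 ≤ a * a := by nlinarith
  have ha1 : (1 : ℝ) < a := by exact_mod_cast ha
  obtain ⟨T, hT'⟩ := Pool.Agent.Results.MP_c9a594_an.TwoBaseDilates.result a b ha hb hab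
    {x | x ∈ Set.Ico (0 : ℝ) 1 ∧ ∀ k : ℕ, Int.fract ((a : ℝ) ^ k * x) ≤ 3 / 4}
    (fun x hx => hx.1)
    (fun x hx => ⟨⟨Int.fract_nonneg _, Int.fract_lt_one _⟩, fun k => by
      have h6 : Int.fract ((a : ℝ) ^ k * Int.fract ((a : ℝ) * x)) =
          Int.fract ((a : ℝ) ^ (k + 1) * x) := by
        rw [Int.fract_eq_fract]
        refine ⟨-(a ^ k * ⌊(a : ℝ) * x⌋), ?_⟩
        rw [Int.fract]
        push_cast
        ring
      rw [h6]
      exact hx.2 _⟩)
    ((gg_dim h (by nlinarith)).trans_le (dimH_mono (Set.Subset.trans (by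
      rintro _ ⟨ω, rfl⟩
      have h5 : 0 ≤ gg h ω := ofDigits_nonneg _
      have h6 := gg_le h (by nlinarith) ω
      have h7 : (4 : ℝ) ≤ (a * a : ℕ) := by exact_mod_cast (by nlinarith : 4 ≤ a * a)
      exact ⟨⟨h5, by nlinarith⟩, fun k => gg_fract ha h k ω⟩) subset_closure)))
    Y hY hT hdim 1 one_ne_zero isAlgebraic_one (min (v - u) (1 / 4))
    (lt_min (by linarith) (by norm_num))
  filter_upwards [(tendsto_pow_atTop_atTop_of_one_lt ha1).eventually_ge_atTop T] with n hn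
  have h1 := min_le_left (v - u) (1 / 4)
  have h2 := min_le_right (v - u) (1 / 4)
  rcases hT' _ (hn.trans (le_abs_self _)) with h3 | h3
  · obtain ⟨x, hx, h4, -⟩ := h3 (3 / 4) (by norm_num) (by linarith)
    exact absurd (hx.2 n) (not_le.2 h4)
  · obtain ⟨y, hy, h4, h5⟩ := h3 u hu (by linarith)
    rw [one_mul] at h4 h5
    exact ⟨y, hy, h4, by linarith⟩

end Pool.Agent.Lib.MP_c9a594_an.Variants.DilatesDense
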