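import Pool.Agent.Results.MP_c9a594_an.ConvolutionRajchman
import Pool.Agent.Lib.MP_c9a594_an.H59.Bern

/-! Convergence along the full sequence, derived from the decay of the Fourier transform of the
convolution with a Bernoulli measure. -/

namespace Pool.Agent.Lib.MP_c9a594_an.Variants.FullSequence

open MeasureTheory Filter Topology Pool.Agent.Lib.MP_c9a594_an.FS

/-- The lift of a measure on the circle to the unit interval. -/
theorem exists_lift {b : ℕ} (hb : 2 ≤ b) (ν : Measure UnitAddCircle) [IsProbabilityMeasure ν]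
    (hν : Ergodic (fun x : UnitAddCircle => b • x) ν)
    (hpos : ∃ c : ℝ, 0 < c ∧ ∀ n : ℕ, c * n ≤ ∑ k ∈ Finset.range (b ^ n),
      Real.negMulLog (ν.real (((↑) : ℝ → UnitAddCircle) ''
        Set.Ico ((k : ℝ) / (b : ℝ) ^ n) ((k + 1 : ℝ) / (b : ℝ) ^ n)))) :
    ∃ ν' : Measure ℝ, IsProbabilityMeasure ν' ∧
      Ergodic (fun x : ℝ => Int.fract ((b : ℝ) * x)) ν' ∧
      (∃ c : ℝ, 0 < c ∧ ∀ n : ℕ, c * n ≤ ∑ k ∈ Finset.range (b ^ n),
        Real.negMulLog (ν'.real (Set.Ico ((k : ℝ) / (b : ℝ) ^ n) ((k + 1 : ℝ) / (b : ℝ) ^ n)))) ∧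
      ∀ g : ℤ, ∫ y : ℝ, Complex.exp (2 * Real.pi * Complex.I * g * y) ∂ν' =
        ∫ z, fourier g z ∂ν := by
  have hb0 : (0 : ℝ) < b := by exact_mod_cast (by omega : 0 < b)
  have hinj : ∀ x ∈ Set.Ico (0 : ℝ) 1, ∀ y ∈ Set.Ico (0 : ℝ) 1,
      (x : UnitAddCircle) = y → x = y := fun x hx y hy h =>
    (AddCircle.coe_eq_coe_iff_of_mem_Ico (a := 0) (by simpa using hx) (by simpa using hy)).1 h
  let ρ : UnitAddCircle → ℝ := fun z => (AddCircle.measurableEquivIco 1 0 z : ℝ)
  have hρ : Measurable ρ :=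
    measurable_subtype_coe.comp (AddCircle.measurableEquivIco 1 0).measurable
  have hρ1 : ∀ z, ρ z ∈ Set.Ico (0 : ℝ) 1 := fun z => by
    simpa using (AddCircle.measurableEquivIco 1 0 z).2
  have hρ2 : ∀ z, ((ρ z : ℝ) : UnitAddCircle) = z := fun z =>
    (AddCircle.equivIco 1 0).symm_apply_apply z
  refine ⟨ν.map ρ, Measure.isProbabilityMeasure_map hρ.aemeasurable, ?_, ?_, fun g => ?_⟩
  · refine (MeasurePreserving.mk hρ rfl).ergodic_of_ergodic_semiconj hν (by fun_prop) fun z => ?_
    refine hinj _ (hρ1 _) _ ⟨Int.fract_nonneg _, Int.fract_lt_one _⟩ ?_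
    rw [hρ2, AddCircle.coe_fract, ← nsmul_eq_mul, AddCircle.coe_nsmul, hρ2]
  · obtain ⟨c, hc, hcn⟩ := hpos
    refine ⟨c, hc, fun n => (hcn n).trans (Finset.sum_congr rfl fun k hk => ?_).le⟩
    have hp : (0 : ℝ) < (b : ℝ) ^ n := by positivity
    have hsub : Set.Ico ((k : ℝ) / (b : ℝ) ^ n) ((k + 1 : ℝ) / (b : ℝ) ^ n) ⊆ Set.Ico 0 1 := by
      refine Set.Ico_subset_Ico (by positivity) ?_
      rw [div_le_one hp]
      exact_mod_cast Finset.mem_range.1 hk
    rw [map_measureReal_apply hρ measurableSet_Ico]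
    congr 2
    ext z
    refine ⟨?_, fun h => ⟨ρ z, h, hρ2 z⟩⟩
    rintro ⟨y, hy, rfl⟩
    rw [Set.mem_preimage, hinj _ (hρ1 _) y (hsub hy) (hρ2 _)]
    exact hy
  · rw [integral_map hρ.aemeasurable (Continuous.aestronglyMeasurable (by fun_prop))]
    refine integral_congr_ae (Eventually.of_forall fun z => ?_)
    simp only
    conv_rhs => rw [← hρ2 z, fourier_coe_apply]
    simp

/-- Fourier coefficients along the powers of a base at least three. -/
theorem fourier_pow {A b : ℕ} (hA : 3 ≤ A) (hb : 2 ≤ b)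
    (hab : ∀ m n : ℕ, A ^ m = b ^ n → m = 0 ∧ n = 0)
    (ν : Measure UnitAddCircle) [IsProbabilityMeasure ν]
    (hν : Ergodic (fun x : UnitAddCircle => b • x) ν)
    (hpos : ∃ c : ℝ, 0 < c ∧ ∀ n : ℕ, c * n ≤ ∑ k ∈ Finset.range (b ^ n),
      Real.negMulLog (ν.real (((↑) : ℝ → UnitAddCircle) ''
        Set.Ico ((k : ℝ) / (b : ℝ) ^ n) ((k + 1 : ℝ) / (b : ℝ) ^ n))))
    {h : ℤ} (hh : h ≠ 0) :
    Tendsto (fun m : ℕ => ∫ z, fourier (h * (A : ℤ) ^ m) z ∂ν) atTop (𝓝 0) := by
  obtain ⟨ν', i1, b1, b2, b3⟩ := exists_lift hb ν hν hpos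
  have hh1 : (1 : ℝ) ≤ |(h : ℝ)| := by exact_mod_cast Int.one_le_abs hh
  have hπ := Real.pi_gt_three
  have hden : 0 < 4 * Real.pi * |(h : ℝ)| := by positivity
  obtain ⟨μ, i2, a1, a2, a3, a4⟩ := exists_bern hA (ε := 1 / (4 * Real.pi * |(h : ℝ)|))
    (by positivity) (one_div_le_one_div_of_le two_pos (by nlinarith))
  have hmain := Pool.Agent.Results.MP_c9a594_an.ConvolutionRajchman.result A b (by omega) hb hab
    μ ν' a1 b1 a2 b2 1 isAlgebraic_one one_ne_zero
  have hc : ∀ g : ℤ, Continuous fun x : ℝ => Complex.exp (2 * Real.pi * Complex.I * g * x) :=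
    fun g => by fun_prop
  have hn : ∀ (g : ℤ) (x : ℝ), ‖Complex.exp (2 * Real.pi * Complex.I * g * x)‖ = 1 :=
    fun g x => by
      rw [← Complex.norm_exp_ofReal_mul_I (2 * Real.pi * g * x)]
      congr 2
      push_cast
      ring
  have hinv : ∀ m : ℕ, ∫ x : ℝ, Complex.exp (2 * Real.pi * Complex.I * (h * (A : ℤ) ^ m : ℤ) * x) ∂μ
      = ∫ x : ℝ, Complex.exp (2 * Real.pi * Complex.I * h * x) ∂μ := fun m => by
    induction m with
    | zero => simp
    | succ m ih =>
      have h2 := a1.toMeasurePreserving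
      rw [← ih]
      conv_rhs => rw [← h2.map_eq,
        integral_map h2.measurable.aemeasurable (hc _).aestronglyMeasurable]
      refine integral_congr_ae (Eventually.of_forall fun x => ?_)
      simp only
      rw [Complex.exp_eq_exp_iff_exists_int]
      refine ⟨h * (A : ℤ) ^ m * ⌊(A : ℝ) * x⌋, ?_⟩
      rw [Int.fract]
      push_cast
      ring
  have hne : ∫ x : ℝ, Complex.exp (2 * Real.pi * Complex.I * h * x) ∂μ ≠ 0 := by
    intro h0
    have hi : Integrable (fun x : ℝ => Complex.exp (2 * Real.pi * Complex.I * h * x)) μ :=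
      (integrable_const (1 : ℝ)).mono' (hc h).aestronglyMeasurable
        (Eventually.of_forall fun x => (hn h x).le)
    have h1 : ‖∫ x : ℝ, (Complex.exp (2 * Real.pi * Complex.I * h * x) - 1) ∂μ‖ ≤
        ∫ x, 2 * Real.pi * |(h : ℝ)| * |x| ∂μ := by
      refine norm_integral_le_of_norm_le (a3.const_mul _) (Eventually.of_forall fun x => ?_)
      have h2 := Real.norm_exp_I_mul_ofReal_sub_one_le (x := 2 * Real.pi * h * x)
      have h3 : Complex.I * ((2 * Real.pi * h * x : ℝ) : ℂ) = 2 * Real.pi * Complex.I * h * x := by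
        push_cast
        ring
      rw [h3, Real.norm_eq_abs, abs_mul, abs_mul, abs_of_pos (by positivity : 0 < 2 * Real.pi)]
        at h2
      exact h2
    rw [integral_sub hi (integrable_const _), h0, integral_const_mul] at h1
    simp only [integral_const, probReal_univ, one_smul, zero_sub, norm_neg, norm_one] at h1
    have h4 := mul_le_mul_of_nonneg_left a4 (by positivity : 0 ≤ 2 * Real.pi * |(h : ℝ)|)
    have h5 : 2 * Real.pi * |(h : ℝ)| * (1 / (4 * Real.pi * |(h : ℝ)|)) = 1 / 2 := by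
      field_simp
      norm_num
    linarith
  have ht : Tendsto (fun m : ℕ => ((h * (A : ℤ) ^ m : ℤ) : ℝ)) atTop (cocompact ℝ) := by
    have hA1 : (1 : ℝ) < A := by exact_mod_cast (by omega : 1 < A)
    refine tendsto_cocompact_of_tendsto_dist_comp_atTop (0 : ℝ) ?_
    refine tendsto_atTop_mono (fun m => ?_) (tendsto_pow_atTop_atTop_of_one_lt hA1)
    have hp : (0 : ℝ) < (A : ℝ) ^ m := by positivity
    rw [Real.dist_eq, sub_zero]
    push_cast
    rw [abs_mul, abs_of_pos hp]
    exact le_mul_of_one_le_left hp.le hh1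
  have h6 := (hmain.comp ht).const_mul
    (∫ x : ℝ, Complex.exp (2 * Real.pi * Complex.I * h * x) ∂μ)⁻¹
  rw [mul_zero] at h6
  refine h6.congr fun m => ?_
  rw [inv_mul_eq_iff_eq_mul₀ hne, ← hinv m, ← b3, ← integral_prod_mul]
  refine integral_congr_ae (Eventually.of_forall fun z => ?_)
  simp only
  rw [← Complex.exp_add]
  congr 1
  push_cast
  ring

/-- For multiplicatively independent `a`, `b` and an ergodic measure of positive entropy for
multiplication by `b` on the circle, the images under multiplication by `a ^ n` converge weakly to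
Lebesgue measure along the full sequence. -/
theorem result (a b : ℕ) (ha : 2 ≤ a) (hb : 2 ≤ b)
    (hab : ∀ m n : ℕ, a ^ m = b ^ n → m = 0 ∧ n = 0)
    (μ : MeasureTheory.Measure UnitAddCircle) [MeasureTheory.IsProbabilityMeasure μ]
    (hμ : Ergodic (fun x : UnitAddCircle => b • x) μ)
    (hpos : ∃ c : ℝ, 0 < c ∧ ∀ n : ℕ, c * n ≤ ∑ k ∈ Finset.range (b ^ n),
      Real.negMulLog (μ.real (((↑) : ℝ → UnitAddCircle) ''
        Set.Ico ((k : ℝ) / (b : ℝ) ^ n) ((k + 1 : ℝ) / (b : ℝ) ^ n))))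
    (f : C(UnitAddCircle, ℂ)) :
    Filter.Tendsto (fun n : ℕ => ∫ x, f (a ^ n • x) ∂μ) Filter.atTop (nhds (∫ x, f x)) := by
  have hfour : ∀ l : ℤ, l ≠ 0 →
      Tendsto (fun n : ℕ => ∫ z, fourier (l * (a : ℤ) ^ n) z ∂μ) atTop (𝓝 0) := fun l hl => by
    have hA : 3 ≤ a ^ 2 := by nlinarith
    have hab' : ∀ m n : ℕ, (a ^ 2) ^ m = b ^ n → m = 0 ∧ n = 0 := fun m n e => by
      have := hab (2 * m) n (by rwa [pow_mul])
      omega
    have h0 := fourier_pow hA hb hab' μ hμ hpos hl
    have h1 := fourier_pow hA hb hab' μ hμ hpos (h := l * a)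
      (mul_ne_zero hl (by exact_mod_cast (by omega : a ≠ 0)))
    rw [NormedAddGroup.tendsto_nhds_zero] at h0 h1 ⊢
    intro ε hε
    obtain ⟨M, hM⟩ := eventually_atTop.1 ((h0 ε hε).and (h1 ε hε))
    refine eventually_atTop.2 ⟨2 * M, fun n hn => ?_⟩
    obtain ⟨m, rfl | rfl⟩ := Nat.even_or_odd' n
    · have := (hM m (by omega)).1
      rwa [Nat.cast_pow, ← pow_mul] at this
    · have := (hM m (by omega)).2
      rwa [Nat.cast_pow, ← pow_mul, mul_assoc, ← pow_succ'] at this
  have hprob : IsProbabilityMeasure (volume : Measure UnitAddCircle) :=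
    ⟨UnitAddCircle.measure_univ⟩
  have hi : ∀ (g : C(UnitAddCircle, ℂ)) (n : ℕ),
      Integrable (fun x : UnitAddCircle => g (a ^ n • x)) μ := fun g n =>
    (g.continuous.comp (continuous_const_smul _)).integrable_of_hasCompactSupport
      (HasCompactSupport.of_compactSpace _)
  have hi' : ∀ g : C(UnitAddCircle, ℂ), Integrable g := fun g =>
    g.continuous.integrable_of_hasCompactSupport (HasCompactSupport.of_compactSpace _)
  have hspan : ∀ g ∈ Submodule.span ℂ (Set.range (@fourier 1)),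
      Tendsto (fun n : ℕ => ∫ x, g (a ^ n • x) ∂μ) atTop (𝓝 (∫ x, g x)) := by
    intro g hg
    induction hg using Submodule.span_induction with
    | mem g hg =>
      obtain ⟨l, rfl⟩ := hg
      by_cases hl : l = 0
      · subst hl
        simp
      · have h0 : ∫ x : UnitAddCircle, fourier l x = 0 := by
          have h1 := congrFun (fourierCoeff_fourier (T := 1) l) 0
          rw [Pi.single_eq_of_ne (Ne.symm hl), fourierCoeff, AddCircle.integral_haarAddCircle] at h1
          simpa using h1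
        rw [h0]
        refine (hfour l hl).congr fun n => ?_
        refine integral_congr_ae (Eventually.of_forall fun x => ?_)
        simp only [fourier_apply]
        rw [mul_smul, ← Nat.cast_pow, natCast_zsmul]
    | zero => simp
    | add g g' _ _ h1 h2 =>
      simp only [ContinuousMap.add_apply, integral_add (hi g _) (hi g' _),
        integral_add (hi' g) (hi' g')]
      exact h1.add h2
    | smul c g _ h1 =>
      simp only [ContinuousMap.smul_apply, integral_smul]
      exact h1.const_smul c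
  rw [Metric.tendsto_nhds]
  intro ε hε
  have hf : f ∈ closure (Submodule.span ℂ (Set.range (@fourier 1)) : Set C(UnitAddCircle, ℂ)) := by
    rw [← Submodule.topologicalClosure_coe, span_fourier_closure_eq_top]
    trivial
  obtain ⟨g, hg, hfg⟩ := Metric.mem_closure_iff.1 hf (ε / 3) (by positivity)
  filter_upwards [Metric.tendsto_nhds.1 (hspan g hg) (ε / 3) (by positivity)] with n hn
  have h1 : dist (∫ x, f (a ^ n • x) ∂μ) (∫ x, g (a ^ n • x) ∂μ) ≤ dist f g := by
    rw [dist_eq_norm, ← integral_sub (hi f n) (hi g n)]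
    refine (norm_integral_le_of_norm_le_const (C := dist f g)
      (Eventually.of_forall fun ω => ?_)).trans (by simp)
    rw [← dist_eq_norm]
    exact ContinuousMap.dist_apply_le_dist _
  have h2 : dist (∫ x, g x) (∫ x, f x) ≤ dist f g := by
    rw [dist_comm, dist_eq_norm, ← integral_sub (hi' f) (hi' g)]
    refine (norm_integral_le_of_norm_le_const (C := dist f g)
      (Eventually.of_forall fun x => ?_)).trans (by simp)
    rw [← dist_eq_norm]
    exact ContinuousMap.dist_apply_le_dist _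
  have h3 := dist_triangle4 (∫ x, f (a ^ n • x) ∂μ) (∫ x, g (a ^ n • x) ∂μ) (∫ x, g x) (∫ x, f x)
  linarith

end Pool.Agent.Lib.MP_c9a594_an.Variants.FullSequence
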