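import Pool.Agent.Lib.MP_c9a594_an.FS.Final

/-! The exceptional sets of Lagarias have dimension zero. -/

namespace Pool.Agent.Lib.MP_c9a594_an.Variants.Lagarias

open MeasureTheory Filter Topology Pool.Agent.Lib.MP_c9a594_an.FS

variable {a b : ℕ}

/-- Few blocks give small dimension. -/
lemma cover {X : Type} [MetricSpace X] (hb : 2 ≤ b) (A : Set X) {N : ℕ} (hN : 1 ≤ N)
    (β : X → ℕ → ℤ)
    (hd : ∀ k, ∀ x ∈ A, ∀ y ∈ A, (∀ j < k, β x j = β y j) → dist x y ≤ ((b : ℝ) ^ (N * k))⁻¹)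
    (W : Finset ℤ) {δ : NNReal} (hW : (W.card : ℝ) ≤ Real.exp (δ * Real.log b * N)) :
    dimH {x | x ∈ A ∧ ∀ j, β x j ∈ W} ≤ δ := by
  borelize X
  have hb1 : (1 : ℝ) < b := by exact_mod_cast (by omega : 1 < b)
  have hb0 : (0 : ℝ) < b := by linarith
  have hdiam : ∀ (k : ℕ) (w : Fin k → W), Metric.ediam {x | x ∈ A ∧ ∀ j : Fin k, β x j = w j} ≤
      ENNReal.ofReal (((b : ℝ) ^ (N * k))⁻¹) := fun k w => by
    refine Metric.ediam_le_of_forall_dist_le fun x hx y hy => hd k x hx.1 y hy.1 fun j hj => ?_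
    exact (hx.2 ⟨j, hj⟩).trans (hy.2 ⟨j, hj⟩).symm
  have hmain := Measure.hausdorffMeasure_le_liminf_sum (ι := fun k : ℕ => Fin k → W)
    (δ : ℝ) {x | x ∈ A ∧ ∀ j, β x j ∈ W} (l := atTop)
    (fun k : ℕ => ENNReal.ofReal (((b : ℝ) ^ (N * k))⁻¹)) ?_
    (fun k w => {x | x ∈ A ∧ ∀ j : Fin k, β x j = w j}) (Eventually.of_forall hdiam) ?_
  · refine dimH_le_of_hausdorffMeasure_ne_top (d := δ) ?_
    refine ne_top_of_le_ne_top ENNReal.one_ne_top (hmain.trans ?_)
    refine liminf_le_of_frequently_le' (Eventually.frequently (Eventually.of_forall fun k => ?_))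
    refine (Finset.sum_le_card_nsmul _ _ _ fun w _ =>
      ENNReal.rpow_le_rpow (hdiam k w) δ.coe_nonneg).trans ?_
    rw [Finset.card_univ, Fintype.card_fun, Fintype.card_coe, Fintype.card_fin, nsmul_eq_mul,
      ENNReal.ofReal_rpow_of_pos (by positivity), ← ENNReal.ofReal_natCast,
      ← ENNReal.ofReal_mul (by positivity), ENNReal.ofReal_le_one]
    have e2 : (((b : ℝ) ^ (N * k))⁻¹) ^ (δ : ℝ) = (Real.exp (δ * Real.log b * N) ^ k)⁻¹ := by
      rw [Real.rpow_def_of_pos (by positivity), Real.log_inv, Real.log_pow, ← Real.exp_nat_mul,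
        ← Real.exp_neg]
      congr 1
      push_cast
      ring
    rw [e2, ← div_eq_mul_inv, div_le_one (by positivity)]
    push_cast
    exact pow_le_pow_left₀ (by positivity) hW k
  · have h1 : Tendsto (fun k : ℕ => N * k) atTop atTop :=
      tendsto_atTop_mono (fun k => Nat.le_mul_of_pos_left k hN) tendsto_id
    have := ENNReal.tendsto_ofReal
      (tendsto_inv_atTop_zero.comp ((tendsto_pow_atTop_atTop_of_one_lt hb1).comp h1))
    simpa using this
  · exact Eventually.of_forall fun k x hx =>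
      Set.mem_iUnion.2 ⟨fun j => ⟨β x j, hx.2 j⟩, hx.1, fun j => rfl⟩

/-- Subexponentially many blocks give dimension zero. -/
lemma cover_zero {X : Type} [MetricSpace X] (hb : 2 ≤ b) (A : Set X) (β : ℕ → X → ℕ → ℤ)
    (hd : ∀ N k, ∀ x ∈ A, ∀ y ∈ A, (∀ j < k, β N x j = β N y j) →
      dist x y ≤ ((b : ℝ) ^ (N * k))⁻¹)
    (hA : ∀ x ∈ A, ∀ c : ℝ, 0 < c → ∀ᶠ N : ℕ in atTop, ∃ W : Finset ℤ,
      (W.card : ℝ) ≤ Real.exp (c * N) ∧ ∀ j, β N x j ∈ W) : dimH A = 0 := by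
  have hb1 : (1 : ℝ) < b := by exact_mod_cast (by omega : 1 < b)
  refine le_antisymm (ENNReal.le_of_forall_pos_le_add fun δ hδ _ => ?_) zero_le
  rw [zero_add]
  have hsub : A ⊆ ⋃ q : {q : ℕ × Finset ℤ // 1 ≤ q.1 ∧
      (q.2.card : ℝ) ≤ Real.exp (δ * Real.log b * q.1)},
        {x | x ∈ A ∧ ∀ j, β q.1.1 x j ∈ q.1.2} := fun x hx => by
    obtain ⟨N, ⟨W, h1, h2⟩, h3⟩ := ((hA x hx (δ * Real.log b)
      (mul_pos (by exact_mod_cast hδ) (Real.log_pos hb1))).and (eventually_ge_atTop 1)).exists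
    exact Set.mem_iUnion.2 ⟨⟨(N, W), h3, h1⟩, hx, h2⟩
  refine (dimH_mono hsub).trans ?_
  rw [dimH_iUnion]
  exact iSup_le fun q => cover hb A q.2.1 _ (hd _) _ q.2.2

/-- An invariant set whose dilates miss an interval infinitely often has few blocks. -/
lemma few (ha : 2 ≤ a) (hb : 2 ≤ b) (hab : ∀ m n : ℕ, a ^ m = b ^ n → m = 0 ∧ n = 0)
    {y : ℕ → ℝ} (hY : ∀ k, y k ∈ Set.Ico (0 : ℝ) 1)
    (hT : ∀ k, ∃ l, Int.fract ((b : ℝ) * y k) = y l) {u v : ℝ} (hu : 0 ≤ u) (huv : u < v)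
    (hv : v ≤ 1) (h : ∃ᶠ n : ℕ in atTop, ∀ k, Int.fract ((a : ℝ) ^ n * y k) ∉ Set.Ioo u v)
    {c : ℝ} (hc : 0 < c) : ∀ᶠ N : ℕ in atTop, ∃ W : Finset ℤ,
      (W.card : ℝ) ≤ Real.exp (c * N) ∧ ∀ k, ⌊(b : ℝ) ^ N * y k⌋ ∈ W := by
  obtain ⟨π, -, h1, -, -, h4⟩ := exists_dig hb
  have hit : ∀ k i : ℕ, ∃ l, Int.fract ((b : ℝ) ^ i * y k) = y l := by
    intro k i
    induction i with
    | zero => exact ⟨k, by simpa using Int.fract_eq_self.2 (hY k)⟩
    | succ i ih =>
      obtain ⟨l, hl⟩ := ih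
      obtain ⟨m, hm⟩ := hT l
      refine ⟨m, ?_⟩
      have := dig_fract_mul (b := b) 1 ((b : ℝ) ^ i * y k)
      rw [pow_one] at this
      rw [← hm, ← hl, this, pow_succ', mul_assoc]
  have hcore : ¬ ∃ᶠ N : ℕ in atTop, Real.exp (c * N) ≤
      (wd 0 N '' {ω | ∃ k i : ℕ, ω = sh i (π (y k))}).ncard := fun hm => by
    have h5 := core_top ha hb hab (S := {ω | ∃ k i : ℕ, ω = sh i (π (y k))}) ?_ hc hm hu huv hv
    · obtain ⟨n, hn, _, ⟨k, i, rfl⟩, h6⟩ := (h.and_eventually h5).exists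
      obtain ⟨l, hl⟩ := hit k i
      rw [h1, hl] at h6
      exact hn l h6
    · rintro _ ⟨k, i, rfl⟩
      exact ⟨k, i + 1, by rw [sh_sh]; push_cast; rw [add_comm]⟩
  rw [not_frequently] at hcore
  filter_upwards [hcore] with N hN
  classical
  let F : (Fin N → Fin b) → ℤ := fun w =>
    if hw : ∃ k, wd 0 N (π (y k)) = w then ⌊(b : ℝ) ^ N * y hw.choose⌋ else 0
  have hfin := Set.toFinite (wd 0 N '' {ω | ∃ k i : ℕ, ω = sh i (π (y k))})
  refine ⟨hfin.toFinset.image F, ?_, fun k => ?_⟩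
  · refine le_trans ?_ (not_le.1 hN).le
    rw [Set.ncard_eq_toFinset_card _ hfin]
    exact_mod_cast Finset.card_image_le
  · refine Finset.mem_image.2 ⟨wd 0 N (π (y k)), hfin.mem_toFinset.2
      ⟨π (y k), ⟨k, 0, by simp [sh_zero]⟩, rfl⟩, ?_⟩
    have hw : ∃ k', wd 0 N (π (y k')) = wd 0 N (π (y k)) := ⟨k, rfl⟩
    simp only [F, dif_pos hw]
    have h7 : Xw N (π (y hw.choose)) = Xw N (π (y k)) :=
      (Xw_eq_iff _ _ _).2 fun j hj =>
        (wd_eq_iff _ _ _ _).1 hw.choose_spec j (by omega) (by omega)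
    have h8 := h4 (y hw.choose) N
    rw [h7, h4 (y k) N, Int.fract_eq_self.2 (hY _), Int.fract_eq_self.2 (hY _)] at h8
    exact h8.symm

/-- The real exceptional set has dimension zero. -/
theorem real_exceptional (ha : 2 ≤ a) (hb : 2 ≤ b)
    (hab : ∀ m n : ℕ, a ^ m = b ^ n → m = 0 ∧ n = 0) {u v : ℝ} (hu : 0 ≤ u) (huv : u < v)
    (hv : v ≤ 1) :
    dimH {x : ℝ | ∃ᶠ n : ℕ in atTop, ∀ k : ℕ,
      Int.fract ((b : ℝ) ^ k * ((a : ℝ) ^ n * x)) ∉ Set.Ioo u v} = 0 := by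
  have hb0 : (0 : ℝ) < b := by exact_mod_cast (by omega : 0 < b)
  set E := {x : ℝ | ∃ᶠ n : ℕ in atTop, ∀ k : ℕ,
      Int.fract ((b : ℝ) ^ k * ((a : ℝ) ^ n * x)) ∉ Set.Ioo u v} with hE
  have hsub : E ⊆ ⋃ m : ℤ, {x | x ∈ E ∧ ⌊x⌋ = m} := fun x hx => Set.mem_iUnion.2 ⟨_, hx, rfl⟩
  refine le_antisymm ((dimH_mono hsub).trans ?_) zero_le
  rw [dimH_iUnion]
  refine iSup_le fun m => le_of_eq (cover_zero hb _
    (fun N x j => ⌊(b : ℝ) ^ N * Int.fract ((b : ℝ) ^ (N * j) * x)⌋) ?_ ?_)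
  · intro N k x hx y hy h
    have key : ∀ (z : ℝ) (j : ℕ), ⌊(b : ℝ) ^ (N * (j + 1)) * z⌋ =
        ⌊(b : ℝ) ^ N * Int.fract ((b : ℝ) ^ (N * j) * z)⌋ + b ^ N * ⌊(b : ℝ) ^ (N * j) * z⌋ := by
      intro z j
      rw [← Int.floor_add_intCast]
      congr 1
      push_cast
      rw [← mul_add, Int.fract_add_floor]
      ring
    have h1 : ∀ j ≤ k, ⌊(b : ℝ) ^ (N * j) * x⌋ = ⌊(b : ℝ) ^ (N * j) * y⌋ := by
      intro j hj
      induction j with
      | zero => simpa using hx.2.trans hy.2.symm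
      | succ j ih => rw [key, key, h j (by omega), ih (by omega)]
    have h2 := Int.abs_sub_lt_one_of_floor_eq_floor (h1 k le_rfl)
    rw [← mul_sub, abs_mul, abs_of_pos (by positivity : (0 : ℝ) < (b : ℝ) ^ (N * k))] at h2
    rw [Real.dist_eq, ← one_div, le_div_iff₀' (by positivity)]
    exact h2.le
  · intro x hx c hc
    have h1 := few ha hb hab (y := fun k => Int.fract ((b : ℝ) ^ k * x))
      (fun k => ⟨Int.fract_nonneg _, Int.fract_lt_one _⟩)
      (fun k => ⟨k + 1, by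
        have := dig_fract_mul (b := b) 1 ((b : ℝ) ^ k * x)
        rw [pow_one] at this
        rw [this, pow_succ', mul_assoc]⟩) hu huv hv
      (hx.1.mono fun n hn k => by
        rw [dig_fract_mul, mul_left_comm]
        exact hn k) hc
    exact h1.mono fun N ⟨W, h2, h3⟩ => ⟨W, h2, fun j => h3 _⟩

section padic

variable {p : ℕ} [Fact p.Prime]

lemma val_mod {m n : ℕ} (h : m ≤ n) (z : ℤ_[p]) :
    (PadicInt.toZModPow n z).val % p ^ m = (PadicInt.toZModPow m z).val := by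
  rw [← PadicInt.cast_toZModPow m n h z, ZMod.cast_eq_val, ZMod.val_natCast]

lemma val_mul (c k : ℕ) (z : ℤ_[p]) :
    (PadicInt.toZModPow k ((c : ℤ_[p]) * z)).val = c * (PadicInt.toZModPow k z).val % p ^ k := by
  rw [← ZMod.val_natCast, map_mul, map_natCast]
  push_cast
  rw [ZMod.natCast_zmod_val]

/-- The `p`-adic exceptional set has dimension zero. -/
theorem padic_exceptional (ha : 2 ≤ a) (hab : ∀ m n : ℕ, a ^ m = p ^ n → m = 0 ∧ n = 0)
    {u v : ℝ} (hu : 0 ≤ u) (huv : u < v) (hv : v ≤ 1) :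
    dimH {z : ℤ_[p] | ∃ᶠ n : ℕ in atTop, ∀ k : ℕ,
      ((PadicInt.toZModPow k ((a : ℤ_[p]) ^ n * z)).val : ℝ) / (p : ℝ) ^ k ∉ Set.Ioo u v} = 0 := by
  have hp : 2 ≤ p := (Fact.out : p.Prime).two_le
  have hp0 : (0 : ℝ) < p := by exact_mod_cast (by omega : 0 < p)
  refine cover_zero hp _ (fun N z j => ⌊(p : ℝ) ^ N *
    (((PadicInt.toZModPow (N * (j + 1)) z).val : ℝ) / (p : ℝ) ^ (N * (j + 1)))⌋) ?_ ?_
  · intro N k x _ y _ h
    have key : ∀ (z : ℤ_[p]) (j : ℕ), ⌊(p : ℝ) ^ N *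
        (((PadicInt.toZModPow (N * (j + 1)) z).val : ℝ) / (p : ℝ) ^ (N * (j + 1)))⌋ =
        (((PadicInt.toZModPow (N * (j + 1)) z).val / p ^ (N * j) : ℕ) : ℤ) := by
      intro z j
      have e : (p : ℝ) ^ N *
          (((PadicInt.toZModPow (N * (j + 1)) z).val : ℝ) / (p : ℝ) ^ (N * (j + 1))) =
          ((PadicInt.toZModPow (N * (j + 1)) z).val : ℝ) / ((p ^ (N * j) : ℕ) : ℝ) := by
        have e1 : (p : ℝ) ^ (N * (j + 1)) = (p : ℝ) ^ (N * j) * (p : ℝ) ^ N := by ring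
        push_cast
        rw [e1]
        field_simp
      rw [e, ← Int.natCast_floor_eq_floor (by positivity), Nat.floor_div_eq_div]
    have h1 : ∀ j ≤ k, (PadicInt.toZModPow (N * j) x).val = (PadicInt.toZModPow (N * j) y).val := by
      intro j hj
      induction j with
      | zero =>
        have e1 := ZMod.val_lt (PadicInt.toZModPow (N * 0) x)
        have e2 := ZMod.val_lt (PadicInt.toZModPow (N * 0) y)
        have e3 : p ^ (N * 0) = 1 := by simp
        omega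
      | succ j ih =>
        have e1 := h j (by omega)
        simp only [key, Nat.cast_inj] at e1
        rw [← Nat.div_add_mod (PadicInt.toZModPow (N * (j + 1)) x).val (p ^ (N * j)),
          ← Nat.div_add_mod (PadicInt.toZModPow (N * (j + 1)) y).val (p ^ (N * j)), e1,
          val_mod (Nat.mul_le_mul_left N (Nat.le_succ j)),
          val_mod (Nat.mul_le_mul_left N (Nat.le_succ j)), ih (by omega)]
    have h2 : x - y ∈ RingHom.ker (PadicInt.toZModPow (p := p) (N * k)) := by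
      rw [RingHom.mem_ker, map_sub, sub_eq_zero]
      exact ZMod.val_injective _ (h1 k le_rfl)
    rw [PadicInt.ker_toZModPow, ← PadicInt.norm_le_pow_iff_mem_span_pow] at h2
    rw [dist_eq_norm]
    rwa [zpow_neg, zpow_natCast] at h2
  · intro z hz c hc
    have hf : ∀ (c k : ℕ), Int.fract ((c : ℝ) *
        (((PadicInt.toZModPow k z).val : ℝ) / (p : ℝ) ^ k)) =
        ((PadicInt.toZModPow k ((c : ℤ_[p]) * z)).val : ℝ) / (p : ℝ) ^ k := fun c k => by
      have := Int.fract_div_natCast_eq_div_natCast_mod (k := ℝ)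
        (m := c * (PadicInt.toZModPow k z).val) (n := p ^ k)
      rw [val_mul, ← mul_div_assoc]
      exact_mod_cast this
    have h1 := few ha hp hab (y := fun k => ((PadicInt.toZModPow k z).val : ℝ) / (p : ℝ) ^ k)
      (fun k => ⟨by positivity, (div_lt_one (by positivity)).2
        (by exact_mod_cast ZMod.val_lt (PadicInt.toZModPow k z))⟩)
      (fun k => ⟨k - 1, by
        rcases k with _ | k
        · simp
        · have := Int.fract_div_natCast_eq_div_natCast_mod (k := ℝ)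
            (m := (PadicInt.toZModPow (k + 1) z).val) (n := p ^ k)
          rw [val_mod (Nat.le_succ k)] at this
          have e : (p : ℝ) * (((PadicInt.toZModPow (k + 1) z).val : ℝ) / (p : ℝ) ^ (k + 1)) =
              ((PadicInt.toZModPow (k + 1) z).val : ℝ) / ((p ^ k : ℕ) : ℝ) := by
            push_cast
            rw [pow_succ (p : ℝ)]
            field_simp
          rw [e, this]
          simp⟩) hu huv hv
      (hz.mono fun n hn k => by
        have := hf (a ^ n) k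
        push_cast at this
        rw [this]
        exact hn k) hc
    exact h1.mono fun N ⟨W, h2, h3⟩ => ⟨W, h2, fun j => h3 _⟩

end padic

lemma indep_two_three : ∀ m n : ℕ, 2 ^ m = 3 ^ n → m = 0 ∧ n = 0 := fun m n h => by
  have h1 : Nat.Coprime (2 ^ m) (3 ^ n) := Nat.Coprime.pow m n (by norm_num)
  rw [h, Nat.coprime_self] at h1
  rw [h1] at h
  exact ⟨by simpa using h, by simpa using h1⟩

/-- Conjecture A of Lagarias, with only the ternary digits after the point restricted. -/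
theorem conjectureA : dimH {x : ℝ |
    {n : ℕ | ∀ k : ℕ, ⌊(3 : ℝ) ^ (k + 1) * (2 ^ n * x)⌋ % 3 ≠ 2}.Infinite} = 0 := by
  refine le_antisymm (le_trans (dimH_mono fun x hx => ?_) (real_exceptional (a := 2) (b := 3)
    le_rfl (by norm_num) indep_two_three (u := 2 / 3) (v := 1) (by norm_num) (by norm_num)
    le_rfl).le) zero_le
  refine (Nat.frequently_atTop_iff_infinite.2 hx).mono fun n hn k h => hn k ?_
  push_cast at h
  have h1 : ⌊(3 : ℝ) ^ (k + 1) * (2 ^ n * x)⌋ = 2 + 3 * ⌊(3 : ℝ) ^ k * (2 ^ n * x)⌋ := by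
    have h2 := Int.fract_add_floor ((3 : ℝ) ^ k * (2 ^ n * x))
    rw [Int.floor_eq_iff, pow_succ', mul_assoc]
    push_cast
    constructor <;> linarith [h.1, h.2]
  omega

/-- Conjecture B of Lagarias. -/
theorem conjectureB : dimH {z : ℤ_[3] |
    {n : ℕ | ∀ k : ℕ, (PadicInt.toZModPow (k + 1) (2 ^ n * z)).val / 3 ^ k ≠ 2}.Infinite} = 0 := by
  refine le_antisymm (le_trans (dimH_mono fun z hz => ?_) (padic_exceptional (a := 2) (p := 3)
    le_rfl indep_two_three (u := 2 / 3) (v := 1) (by norm_num) (by norm_num) le_rfl).le) zero_le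
  refine (Nat.frequently_atTop_iff_infinite.2 hz).mono fun n hn k h => ?_
  push_cast at h
  rcases k with _ | k
  · have := h.1
    simp at this
    linarith
  · refine hn k ((Nat.div_eq_iff (by positivity)).2 ?_)
    have h1 := h.1
    have h2 := ZMod.val_lt (PadicInt.toZModPow (k + 1) (2 ^ n * z))
    rw [lt_div_iff₀ (by positivity), pow_succ (3 : ℝ)] at h1
    have h3 : ((2 * 3 ^ k : ℕ) : ℝ) ≤ ((PadicInt.toZModPow (k + 1) (2 ^ n * z)).val : ℝ) := by
      push_cast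
      linarith
    have h4 : 2 * 3 ^ k ≤ (PadicInt.toZModPow (k + 1) (2 ^ n * z)).val := by exact_mod_cast h3
    have h5 : 3 ^ (k + 1) = 3 ^ k * 3 := pow_succ 3 k
    omega

end Pool.Agent.Lib.MP_c9a594_an.Variants.Lagarias
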