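import Pool.Agent.Lib.MP_c9a594_an.SharpFinal
import Pool.Agent.Lib.MP_c9a594_an.SharpLinear

open Pool.Agent.Lib.MP_c9a594_an in
/-- For multiplicatively independent bases `a`, `b`, if the expansion of a real number `x` in each
of the two bases either has linear block complexity or is a morphic sequence of exponential
growth, then `x` is rational. Derived here from the copy dimension inequality. -/
theorem Pool.Agent.Lib.MP_c9a594_an.Variants.MorphicTwoBases.result (a b : ℕ) (ha : 2 ≤ a)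
    (hb : 2 ≤ b) (hab : ∀ k l : ℕ, 0 < k → 0 < l → a ^ k ≠ b ^ l) (x : ℝ)
    (hxa : (∃ C : ℝ, ∀ n : ℕ, 1 ≤ n →
        (Set.ncard {z : ℤ | ∃ k : ℕ, z = ⌊(a : ℝ) ^ n * Int.fract ((a : ℝ) ^ k * x)⌋} : ℝ)
          ≤ C * n) ∨ Morphic (digit a x))
    (hxb : (∃ C : ℝ, ∀ n : ℕ, 1 ≤ n →
        (Set.ncard {z : ℤ | ∃ k : ℕ, z = ⌊(b : ℝ) ^ n * Int.fract ((b : ℝ) ^ k * x)⌋} : ℝ)
          ≤ C * n) ∨ Morphic (digit b x)) :
    ∃ r : ℚ, x = (r : ℝ) := by
  by_contra h
  have hx : Irrational x := fun ⟨r, hr⟩ => h ⟨r, hr.symm⟩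
  have h1 : copyDim a x = 0 :=
    hxa.elim (fun ⟨C, hC⟩ => copyDim_of_linear ha x C hC) (copyDim_of_morphic ha x)
  have h2 : copyDim b x = 0 :=
    hxb.elim (fun ⟨C, hC⟩ => copyDim_of_linear hb x C hC) (copyDim_of_morphic hb x)
  have h3 := copyDim_add ha hb hab hx
  have h4 := overlap_lt_one ha hb hab
  linarith
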