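import Pool.Agent.Lib.MP_c9a594_an.Final

/-- For multiplicatively independent bases `a`, `b` and an irrational number `x` that is not a
Liouville number, the sum of the block complexities of `x` in base `a` and in base `b` grows
faster than linearly. -/
theorem Pool.Agent.Lib.MP_c9a594_an.Variants.SuperlinearNonLiouville.result (a b : ℕ) (ha : 2 ≤ a)
    (hb : 2 ≤ b) (hab : ∀ k l : ℕ, 0 < k → 0 < l → a ^ k ≠ b ^ l) (x : ℝ) (hx : Irrational x)
    (hL : ¬ Liouville x) :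
    Filter.Tendsto (fun n : ℕ =>
      ((Set.ncard {z : ℤ | ∃ k : ℕ, z = ⌊(a : ℝ) ^ n * Int.fract ((a : ℝ) ^ k * x)⌋} : ℝ) +
        (Set.ncard {z : ℤ | ∃ k : ℕ, z = ⌊(b : ℝ) ^ n * Int.fract ((b : ℝ) ^ k * x)⌋} : ℝ)) / n)
      Filter.atTop Filter.atTop :=
  Pool.Agent.Lib.MP_c9a594_an.nonLiouville a b ha hb hab x hx hL
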