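import Pool.Agent.Lib.MP_c9a594_an.H93Uniform

/-- For multiplicatively independent bases `a`, `b` there is a function `ω` tending to infinity
such that, for each `n₀`, the numbers `x ∈ [0,1)` whose block complexities in base `a` and in
base `b` add up to at most `n ω(n)` for all `n ≥ n₀` lie in a finite set of rational numbers. -/
theorem Pool.Agent.Lib.MP_c9a594_an.Variants.SuperlinearUniform.result (a b : ℕ) (ha : 2 ≤ a)
    (hb : 2 ≤ b) (hab : ∀ k l : ℕ, 0 < k → 0 < l → a ^ k ≠ b ^ l) :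
    ∃ ω : ℕ → ℝ, Filter.Tendsto ω Filter.atTop Filter.atTop ∧
      ∀ n₀ : ℕ, ∃ F : Finset ℚ, ∀ x ∈ Set.Ico (0 : ℝ) 1,
        (∀ n : ℕ, n₀ ≤ n →
          ((Set.ncard {z : ℤ | ∃ k : ℕ, z = ⌊(a : ℝ) ^ n * Int.fract ((a : ℝ) ^ k * x)⌋} : ℝ) +
            (Set.ncard {z : ℤ | ∃ k : ℕ, z = ⌊(b : ℝ) ^ n * Int.fract ((b : ℝ) ^ k * x)⌋} : ℝ))
            ≤ n * ω n) → ∃ r ∈ F, x = (r : ℝ) :=
  Pool.Agent.Lib.MP_c9a594_an.uniform_of a b (Pool.Agent.Lib.MP_c9a594_an.core a b ha hb hab)
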